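import Pool.Agent.J4H50.YO.Main

set_option autoImplicit false

/-!
# The strong monodromy conjecture for germs with a given tangent cone (superisolated and Lê-Yomdin
# singularities, in all dimensions)

Let `𝓒` be the least class of formal power series `f`, `f(0) = 0`, for example germs of holomorphic
functions, which contains

* the smooth germs,
* the reduced plane curves,
* the semi-weighted-homogeneous germs in any number of variables,

and which is closed under

* Thom-Sebastiani sums `f(x) + g(y)`,
* changes of the coordinates and multiplication by units,
* the following operation. Let `f = f_d + R` be a germ in `n` variables, `f_d` a form of degree `d ≥ 2`,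
  all terms of `R` of degree greater than `d`, such that the tangent cone `f_d = 0` has only finitely
  many singular points `P` in the projective space. Suppose that in suitable formal coordinates
  `(z, y)` of the blowing up of the origin at `P`, where `z = 0` is the exceptional divisor, and up to
  a unit, `f = z ^ d (g_P(y) + z ^ k_P)`, `n ≤ d + k_P`. If all the `g_P` are in `𝓒`, then `f` is in `𝓒`,
  with one condition, see below. For instance, this holds if all terms of `R` have degree at least
  `d + k`, and the terms of degree `d + k` do not vanish at the singular points of the tangent cone
  (`k_P = k`, and `g_P` is the germ of the tangent cone at `P`): these are the superisolated singularities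
  (`k = 1`) and the Lê-Yomdin singularities, in any number of variables.

In particular, for `n = 3` the `g_P` are reduced plane curves, so that the class contains all the
superisolated and Lê-Yomdin singularities of surfaces (with the condition), then all those in four
variables whose tangent cones have such singularities, and so on, and all the Thom-Sebastiani sums of
these germs.

We prove the monodromy conjecture in its strong form for the local topological zeta functions,
also for the twisted ones, of all `f` in `𝓒`: every pole is a root of the local Bernstein-Sato
polynomial of `f`. (By the theorem of Malgrange and Kashiwara, `exp(2 π i s₀)` is an eigenvalue of the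
monodromy at some point near the origin for every root `s₀`.)

The condition concerns the number `- n / d`: it is assumed that it is not a pole of the zeta
functions, or that the differential form `f_d ^ (- n / d) dx_1 ∧ ⋯ ∧ dx_n` is not exact on the complement
of the cone (`NonExact`; as for the `n / d` conjecture for hyperplane arrangements), or that there is a
de Rham functional for one of the `g_P` at `- n / d` (`NV`; for instance if `- n / d` is a pole of its
zeta functions).

The zeta functions are part of the definition of the class (`TCG`): those of `f_d + R` are given by
the formula `coneW` in terms of all the twisted zeta functions of the `g_P`. The formula is obtained by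
blowing up the origin; the contribution of `P` is computed with the Thom-Sebastiani formula for
`g_P(y) + z ^ k` with the measure `|z| ^ (d s + n - 1) dz`. (It was compared with the formula of Milnor
and Orlik for `x ^ a z + y ^ d + z ^ (d + k)` and similar polynomials, for all twists.)

Method. A de Rham functional for `f` at `s` (`DR`) is a linear functional on the differential forms
`q f ^ (s - k) dx`, `q` a power series, which vanishes on exact forms. `NV f s` says that there is one
with the value `q(0)` at `q f ^ s dx`. The proof shows that `NV f s` holds for all the poles `s` of the
functions `W_e` (`W_1 = ((s + 1) Z_1 - 1) / s`, `W_e = Z_e`), by induction: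

* `t_CU`: for plane curves, if there is no such functional, then the residues along an exceptional
  curve with `- ν / N = s` of the exact forms contain the leading term of `dx`, so that a differential
  equation on the projective line has a rational solution (`star3`, `blow_sol3`), and the curve meets at
  most two other components;
* `t_SW`, `t_SU`, `t_CO`: semi-weighted-homogeneous germs, sums, coordinates and units;
* `t_LM`, `t_CN`: from a functional `β` for `g_P` at `S = (n + (d + k) s) / k` one gets a functional `V` for
  `z ^ d (g_P(y) + z ^ k)` at `s`, with the value `q(0)` at `z ^ (n - 1) q f ^ s dz ∧ dy`: the value at
  `z ^ l b(y) f ^ (s - j)` is `c(j, m) β_m(b)`, if `l - (n - 1) = (d + k) j - k m`, with quotients `c(j, m)`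
  of products of linear factors; then one pulls back forms by the blowing up;
* `t_NE`: the number `- n / d`.

`NV f s` implies that `s` is a root of the Bernstein-Sato polynomial, if `f` is not smooth (`t_NFE`). -/

namespace Pool.Agent.Results.MP_aa7fc1_ag.TangentConeGerms

open Pool.Agent.J4H50.YO
open Pool.Agent.Y229.PS (IsFormalBFunction)

/-- **The strong monodromy conjecture for the local topological zeta functions of germs with a given
tangent cone.**

Let the formal power series `f` (for example the germ of a holomorphic function) be in the class `𝓒`
with the twisted local topological zeta functions `Z e`, `e ≥ 1` (`TCG`); `Z 1` is the local
topological zeta function. Let `b` satisfy `IsFormalBFunction f b`: `b(s) f ^ s = P(s) f ^ (s + 1)` for a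
differential operator `P(s)` with formal power series as coefficients, polynomial in `s`. Then every
pole of `Z e` is a root of `b`. -/
theorem result {N : ℕ} (f : MvPowerSeries (Fin N) ℂ) (Z : ℕ → RatFunc ℂ)
    (hZ : TCG (Fin N) f Z) (b : Polynomial ℂ) (hb : IsFormalBFunction f b) (e : ℕ) (he : 1 ≤ e)
    (s₀ : ℂ) (hs₀ : (Z e).denom.eval s₀ = 0) : b.eval s₀ = 0 :=
  tcg_local' f Z hZ b hb e he s₀ hs₀

end Pool.Agent.Results.MP_aa7fc1_ag.TangentConeGerms
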