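import Pool.Agent.J4H50.TF.Fin

set_option autoImplicit false

/-!
# The strong monodromy conjecture for Thom-Sebastiani sums: local topological zeta functions

Let `𝓣` be the least class of formal power series `f`, `f(0) = 0`, for example germs of holomorphic
functions, which contains

* the smooth germs,
* the germs `h(x) (f₀(x) + ∑ y_j f_j(x)) ^ a`, `x = (x₁, x₂)`, with polynomials `h`, `f₀`, `f_j` and
  `a ≥ 1`; in particular all the plane curves `f(x₁, x₂)`, also the non-reduced ones,
* the semi-weighted-homogeneous germs in any number of variables: `G₀ + g`, where `G₀` is
  weighted homogeneous with an isolated critical point at the origin, and `g` has greater weight,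
* with `f(x)` and `g(y)` the Thom-Sebastiani sum `f(x) + g(y)` and the product `f(x) g(y)`,
* with `f` the powers `f ^ k`,

and which is closed under changes of the coordinates, multiplication by units, and additional
variables. For example, `𝓣` contains all the germs
`f₁(x₁, x₂) + f₂(x₃, x₄) + ⋯ + f_r(x_{2r-1}, x_{2r})`, where the `f_i` are arbitrary germs of plane
curves, and their powers and products. (The singularities are not isolated if one of the `f_i` is not
reduced.)

We prove the monodromy conjecture in its strong form for the local topological zeta functions,
also for the twisted ones, of all `f` in `𝓣`: every pole is a root of the local Bernstein-Sato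
polynomial of `f`. (By the theorem of Malgrange and Kashiwara, `exp(2 π i s₀)` is an eigenvalue of the
monodromy at some point near the origin for every root `s₀`.)

The zeta functions are part of the definition of the class (`TSG`): those of
`h(x) (f₀(x) + ∑ y_j f_j(x)) ^ a` are computed by blowing up points of the plane (`PointZeta`), those of
`f(x) + g(y)` are given by the Thom-Sebastiani formula (`tsZ`) in terms of all the twisted zeta
functions of `f` and `g`.

Method: let `s₁` be a number such that `H f ^ s₁` is not in the module over the ring of differential
operators which is generated by `f ^ (s₁ + 1)` and the `(∂_i f) f ^ s₁`, for all units `H` (more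
precisely, we consider the jets of `f` of all orders), and let `s₂` be such a number for `g`. Then
`s₁ + s₂` is such a number for `f(x) + g(y)`, if it is not a natural number (`not_FEv_sum`). For the
proof, there is a functional `α` on the jets of `ℂ[[x]][1/f] f ^ s₁` which vanishes on the module and is
the value at the origin on `ℂ[[x]] f ^ s₁`, and a functional `β` for `g`; then the functionals
`∑_{i + j = m} [s₁]_i [s₂]_j α(u f ^ (s₁ - i)) β(v g ^ (s₂ - j))`, where `[s]_i = s (s - 1) ⋯ (s - i + 1)`,
define a functional for `f(x) + g(y)` with the same properties. The poles of the zeta functions of
`f(x) + g(y)` are sums of poles of those of `f` and `g`, by the formula for the zeta functions. The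
property of the numbers is also inherited by products and powers, and does not depend on the
coordinates. For semi-weighted-homogeneous germs and the number `- |w| / D` there is a functional given
by the period of the leading term.
-/

namespace Pool.Agent.Results.MP_aa7fc1_ag.ThomSebastianiGerms

open Pool.Agent.J4H50.TF
open Pool.Agent.Y229.PS (IsFormalBFunction)

/-- **The strong monodromy conjecture for the local topological zeta functions of Thom-Sebastiani
sums.**

Let the formal power series `f` (for example the germ of a holomorphic function) be in the class `𝓣`
with the twisted local topological zeta functions `Z e`, `e ≥ 1` (`TSG`); `Z 1` is the local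
topological zeta function. Let `b` satisfy `IsFormalBFunction f b`: `b(s) f ^ s = P(s) f ^ (s + 1)` for a
differential operator `P(s)` with formal power series as coefficients, polynomial in `s`. Then every
pole of `Z e` is a root of `b`. -/
theorem result {N : ℕ} (f : MvPowerSeries (Fin N) ℂ) (Z : ℕ → RatFunc ℂ)
    (hZ : TSG (Fin N) f Z) (b : Polynomial ℂ) (hb : IsFormalBFunction f b) (e : ℕ) (he : 1 ≤ e)
    (s₀ : ℂ) (hs₀ : (Z e).denom.eval s₀ = 0) : b.eval s₀ = 0 :=
  tsg_local f Z hZ b hb e he s₀ hs₀

end Pool.Agent.Results.MP_aa7fc1_ag.ThomSebastianiGerms
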