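import Pool.Agent.J4H50.TW.Fin

set_option autoImplicit false

/-!
# The monodromy conjecture for sums and products of plane curve germs and nondegenerate germs

Let `𝓦` be the least class of formal power series `f`, `f(0) = 0`, for example germs of holomorphic
functions, which contains

* all germs of plane curves `f(x₁, x₂)`, also the non-reduced ones; more generally the germs
  `h(x) (f₀(x) + ∑ y_j f_j(x)) ^ a`, `x = (x₁, x₂)`, with polynomials `h`, `f₀`, `f_j`,
* the semi-weighted-homogeneous germs in any number of variables,
* all germs in any number of variables which are nondegenerate for the compact faces of their Newton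
  polyhedron (Kouchnirenko, Varchenko), more generally the stably nondegenerate germs, for which this
  holds for `f(x) + ∑ y_i z_i` in suitable coordinates; for example nondegenerate functions on
  nondegenerate complete intersections; the singularity need not be isolated,
* with `f(x)` and `g(y)` the Thom-Sebastiani sum `f(x) + g(y)` and the product `f(x) g(y)`,
* with `f` the powers `f ^ k`,

and which is closed under changes of the coordinates, multiplication by units, and additional
variables. For example, `𝓦` contains all sums
`f₁(x₁, x₂) + ⋯ + f_r(x_{2r-1}, x_{2r}) + g(y₁, …, y_m)` of arbitrary plane curve germs and a nondegenerate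
germ.

We prove the monodromy conjecture of Denef and Loeser for the local topological zeta functions,
also for the twisted ones, of all `f` in `𝓦`: for every pole `s₀` there is `i ∈ ℕ` such that `s₀ - i` is a
root of the local Bernstein-Sato polynomial of `f`. By the theorem of Malgrange and Kashiwara,
`exp(2 π i s₀)` is then an eigenvalue of the monodromy at some point near the origin.

Method. Without the nondegenerate germs this is `ThomSebastianiGerms`, with `i = 0`; for these it is a
starting result (`NondegenerateCompactFaces`, `StablyNondegenerateGermsTwisted`). For the sums we need
more: let `W_1(s) = ((s + 1) Z_1(s) - 1) / s` and `W_e = Z_e`, `e ≥ 2`; for every pole `s` of `W_e` (also for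
`s = -1`) there is `i ∈ ℕ` such that no `H f ^ (s - i)`, `H` a unit, is in the module over the ring of
differential operators which is generated by `f ^ (s - i + 1)` and the `(∂_j f) f ^ (s - i)`. We prove
(`exists_c`): if this fails for all `i`, then there is a functional equation
`c(s) f ^ s ∈ D[s] (f, ∂_1 f, …, ∂_n f) f ^ s` with `c(s - i) ≠ 0` for all `i` (one removes the roots `s - i` of a
generator `c` one after the other, starting with the smallest one: if `c = (s - α) c'`, then the
functional equation at `α` gives one for `c' B` with `B(α) ≠ 0`). This is applied to
`f + y z`, whose zeta function is regular at `-2` if `W_1` is regular at `-1`. The property is inherited by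
sums (`not_FEv_sum`), products and powers.
-/

namespace Pool.Agent.Results.MP_aa7fc1_ag.ThomSebastianiNondegenerate

open Pool.Agent.J4H50.TW
open Pool.Agent.Y229.PS (IsFormalBFunction)

/-- **The monodromy conjecture for the local topological zeta functions of the class `𝓦`.**

Let the formal power series `f` (for example the germ of a holomorphic function) be in the class `𝓦`
with the twisted local topological zeta functions `Z e`, `e ≥ 1` (`TSW`); `Z 1` is the local
topological zeta function. Let `b` satisfy `IsFormalBFunction f b`: `b(s) f ^ s = P(s) f ^ (s + 1)` for a
differential operator `P(s)` with formal power series as coefficients, polynomial in `s`. Then for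
every pole `s₀` of `Z e` there is `i ∈ ℕ` with `b(s₀ - i) = 0`. -/
theorem result {N : ℕ} (f : MvPowerSeries (Fin N) ℂ) (Z : ℕ → RatFunc ℂ)
    (hZ : TSW (Fin N) f Z) (b : Polynomial ℂ) (hb : IsFormalBFunction f b) (e : ℕ) (he : 1 ≤ e)
    (s₀ : ℂ) (hs₀ : (Z e).denom.eval s₀ = 0) : ∃ i : ℕ, b.eval (s₀ - i) = 0 :=
  tsw_local f Z hZ b hb e he s₀ hs₀

end Pool.Agent.Results.MP_aa7fc1_ag.ThomSebastianiNondegenerate
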